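import Pool.Agent.TWF.St

/-!
# TWF, module FIN: assembly
-/

set_option autoImplicit false

open scoped ContDiff Topology
open Set Function TopologicalSpace

namespace Pool.Agent.TWF

open Pool.Agent.Helper17 Pool.Agent.Helper42 Pool.Agent.H50.Susp

namespace FIN

lemma symp_surj {N : ℕ} {A : Phase N →L[ℝ] Phase N}
    (hA : ∀ u v, omegaStd (A u) (A v) = omegaStd u v) : Surjective A := by
  have hinj : Injective A := by
    rw [injective_iff_map_eq_zero]
    intro v hv
    apply eq_zero_of_omegaStd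
    intro w
    rw [← hA v w, hv, omegaStd_zero_left]
  exact (LinearMap.injective_iff_surjective (f := (A : Phase N →ₗ[ℝ] Phase N))).1 hinj

/-- The derivative of a symplectomorphism maps Hamiltonian vector fields to such. -/
lemma map_hamV {N : ℕ} {f : Phase N → ℝ} (hf : Differentiable ℝ f) (φ : SympCt N)
    (p : Phase N) :
    fderiv ℝ (φ : Equiv.Perm (Phase N)) p (hamV (fun p => f ((φ : Equiv.Perm (Phase N)) p)) p) =
      hamV f ((φ : Equiv.Perm (Phase N)) p) := by
  set A := fderiv ℝ (φ : Equiv.Perm (Phase N)) p with hA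
  have hAs : ∀ u v, omegaStd (A u) (A v) = omegaStd u v := fun u v => φ.2.2.2.1 p u v
  rw [← sub_eq_zero]
  apply eq_zero_of_omegaStd
  intro w'
  obtain ⟨w, rfl⟩ := symp_surj hAs w'
  have h1 : HasFDerivAt (fun p => f ((φ : Equiv.Perm (Phase N)) p))
      ((fderiv ℝ f ((φ : Equiv.Perm (Phase N)) p)).comp A) p :=
    (hf _).hasFDerivAt.comp p (SympCt.differentiable φ p).hasFDerivAt
  rw [omegaStd_sub_left, hAs, omegaStd_hamV, omegaStd_hamV, h1.fderiv]
  simp

lemma hamField_eq {N : ℕ} (f : Phase N → ℝ) (p : Phase N) : hamField f p = hamV f p := by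
  rw [← sub_eq_zero]
  apply eq_zero_of_omegaStd
  intro v
  rw [omegaStd_sub_left, omegaStd_hamV]
  have h1 : v = ∑ k : Fin N ⊕ Fin N, v k • EuclideanSpace.single k (1 : ℝ) := by
    ext k
    rcases k with k | k <;> simp [Pi.single_apply]
  have h2 : fderiv ℝ f p v = ∑ i : Fin N, (v (Sum.inl i) * fderiv ℝ f p
      (EuclideanSpace.single (Sum.inl i) 1) + v (Sum.inr i) * fderiv ℝ f p
      (EuclideanSpace.single (Sum.inr i) 1)) := by
    conv_lhs => rw [h1]
    rw [map_sum, Fintype.sum_sum_type, ← Finset.sum_add_distrib]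
    refine Finset.sum_congr rfl fun i _ => ?_
    rw [map_smul, map_smul, smul_eq_mul, smul_eq_mul]
  rw [h2]
  simp only [omegaStd, hamField, Sum.elim_inl, Sum.elim_inr]
  rw [← sub_eq_zero, sub_zero, sub_neg_eq_add, ← Finset.sum_add_distrib]
  refine Finset.sum_eq_zero fun i _ => ?_
  ring

variable {n k : ℕ}

/-- the component of a linear map -/
noncomputable def comp (L : Phase n →L[ℝ] (Fin k → ℝ)) (i : Fin k) : Phase n →L[ℝ] ℝ :=
  (ContinuousLinearMap.proj i).comp L

lemma comp_apply' (L : Phase n →L[ℝ] (Fin k → ℝ)) (i : Fin k) (p : Phase n) :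
    comp L i p = L p i := rfl

lemma hamV_lin (m : Phase n →L[ℝ] ℝ) (p : Phase n) : hamV (fun q => m q) p = vec m := by
  rw [hamV, vec]
  congr 2
  exact m.fderiv

lemma bracket_lin (L : Phase n →L[ℝ] (Fin k → ℝ)) (i j : Fin k) (p : Phase n) :
    bracket (fun q => L q i) (fun q => L q j) p = L (vec (comp L i)) j := by
  have h1 : (fun q => L q i) = fun q => comp L i q := rfl
  have h2 : (fun q => L q j) = fun q => comp L j q := rfl
  rw [bracket, hamField_eq, h1, h2, hamV_lin, (comp L j).fderiv]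
  rfl

lemma vec_eq_zero {m : Phase n →L[ℝ] ℝ} (h : vec m = 0) : m = 0 := by
  ext p
  have h1 : omegaStd (vec m) p = -(m p) := by
    have h2 : vec m = (-1 : ℝ) • sharp n m := by simp [vec]
    rw [h2, omegaStd_smul_left, omegaStd_sharp]
    ring
  rw [h, omegaStd_zero_left] at h1
  simp
  linarith

lemma vec_add (a b : ℝ) (m m' : Phase n →L[ℝ] ℝ) :
    vec (a • m + b • m') = a • vec m + b • vec m' := by
  simp only [vec, map_add, map_smul, smul_neg, neg_add]

/-- two independent components: a linear function `l` with `l v = 1`, `l w = 0` -/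
lemma exists_l (v w : Phase n) (h : ∀ a b : ℝ, a • v + b • w = 0 → a = 0 ∧ b = 0) :
    ∃ l : Phase n →L[ℝ] ℝ, l v = 1 ∧ l w = 0 ∧ w ≠ 0 := by
  have hw : w ≠ 0 := by
    intro hw
    have := (h 0 1 (by rw [hw]; simp)).2
    exact one_ne_zero this
  have hww : (inner ℝ w w : ℝ) ≠ 0 := by
    rw [real_inner_self_eq_norm_sq]
    exact pow_ne_zero 2 (norm_ne_zero_iff.2 hw)
  set c : ℝ := inner ℝ w v / inner ℝ w w with hc
  set u : Phase n := v - c • w with hu
  have hu0 : u ≠ 0 := by
    intro hu1
    have h2 : (1 : ℝ) • v + (-c) • w = 0 := by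
      rw [one_smul, neg_smul, ← sub_eq_add_neg]
      exact hu1
    exact one_ne_zero (h 1 (-c) h2).1
  have huw : (inner ℝ u w : ℝ) = 0 := by
    rw [hu, inner_sub_left, inner_smul_left, real_inner_comm w v, hc]
    simp only [conj_trivial]
    field_simp
    simp
  have huv : (inner ℝ u v : ℝ) = inner ℝ u u := by
    have h3 : v = u + c • w := by rw [hu]; abel
    conv_lhs => rw [h3]
    rw [inner_add_right, inner_smul_right, huw, mul_zero, add_zero]
  have huu : (inner ℝ u u : ℝ) ≠ 0 := by
    rw [real_inner_self_eq_norm_sq]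
    exact pow_ne_zero 2 (norm_ne_zero_iff.2 hu0)
  refine ⟨((inner ℝ u u : ℝ))⁻¹ • innerSL ℝ u, ?_, ?_, hw⟩
  · simp only [_root_.smul_apply, innerSL_apply_apply, smul_eq_mul]
    rw [huv]
    exact inv_mul_cancel₀ huu
  · simp only [_root_.smul_apply, innerSL_apply_apply, smul_eq_mul]
    rw [huw, mul_zero]

/-- existence, in families -/
theorem fam (hFLO : St_FLO) (hCOM : St_COM) (hGEO : St_GEO) (L : Phase n →L[ℝ] (Fin k → ℝ))
    (i j : Fin k) (hij : ∀ a b : ℝ, (∀ p, a * L p i + b * L p j = 0) → a = 0 ∧ b = 0)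
    (T : Type) [TopologicalSpace T] [CompactSpace T] (R : ℝ) (hR : 0 ≤ R)
    (F : T → Phase n → Fin k → ℝ) (hF : CF F)
    (hstd : ∀ t p, R < ‖p‖ → F t p = L p)
    (hbr : ∀ t (a b : Fin k) p, bracket (fun q => F t q a) (fun q => F t q b) p =
      bracket (fun q => L q a) (fun q => L q b) p) :
    ∃ φ : T → SympCt n, Continuous φ ∧
      ∀ t p, L ((φ t : Equiv.Perm (Phase n)) p) = F t p := by
  have hFa : ∀ a : Fin k, CF (fun t q => F t q a) := fun a =>
    CF.clm (ContinuousLinearMap.proj (R := ℝ) (φ := fun _ : Fin k => ℝ) a) hF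
  have hbound : ∀ a : Fin k, ∃ ℓ : ℝ, ∀ t p,
      ‖fderiv ℝ (fun q => hamV (fun q => F t q a) q) p‖ ≤ ℓ := by
    intro a
    obtain ⟨ℓ, -, hℓ⟩ := exists_bound_of_support (T := T)
      (G := fun t p => fderiv ℝ (fun q => hamV (fun q => F t q a) q) p) (R := R)
      ((CF_hamV (hFa a)).fderiv.continuous) (fun t p hp => by
        have h1 : (fun q => hamV (fun q => F t q a) q) =ᶠ[𝓝 p] fun _ => vec (comp L a) := by
          filter_upwards [(isOpen_outside R).mem_nhds hp] with q hq
          have h2 : (fun q => F t q a) =ᶠ[𝓝 q] fun q => comp L a q := by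
            filter_upwards [(isOpen_outside R).mem_nhds hq] with q' hq'
            rw [hstd t q' hq']
            rfl
          rw [← hamV_lin (comp L a) q, hamV, hamV, h2.fderiv_eq]
        show fderiv ℝ (fun q => hamV (fun q => F t q a) q) p = 0
        rw [h1.fderiv_eq]
        exact (hasFDerivAt_const (vec (comp L a)) p).fderiv)
    exact ⟨ℓ, hℓ⟩
  obtain ⟨ℓ, hi⟩ := hbound i
  obtain ⟨ℓ', hj⟩ := hbound j
  obtain ⟨Φ, hΦcf, hΦ⟩ := hFLO n T R ℓ (comp L i) (fun t q => F t q i) (hFa i)
    (fun t p hp => by rw [hstd t p hp]; rfl) hi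
  obtain ⟨Ψ, hΨcf, hΨ⟩ := hFLO n T R ℓ' (comp L j) (fun t q => F t q j) (hFa j)
    (fun t p hp => by rw [hstd t p hp]; rfl) hj
  set v := vec (comp L i) with hv
  set w := vec (comp L j) with hw
  have hind : ∀ a b : ℝ, a • v + b • w = 0 → a = 0 ∧ b = 0 := by
    intro a b h
    rw [hv, hw, ← vec_add] at h
    have h1 := vec_eq_zero h
    exact hij a b fun p => by
      have := congrArg (fun m : Phase n →L[ℝ] ℝ => m p) h1
      simpa [comp_apply'] using this
  obtain ⟨l, hlv, hlw, hw0⟩ := exists_l v w hind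
  set C : ℝ := ‖l‖ * R + 1 with hC
  have hCpos : 0 < C := by have := mul_nonneg (norm_nonneg l) hR; linarith
  have hB : ∀ p : Phase n, ‖p‖ ≤ R → |l p| < C := by
    intro p hp
    have h1 := l.le_opNorm p
    rw [Real.norm_eq_abs] at h1
    have h2 := mul_le_mul_of_nonneg_left hp (norm_nonneg l)
    linarith
  -- the change of the functions along the flow of `F i`
  have hconst : ∀ t (a : Fin k) p, fderiv ℝ (fun q => F t q a) p (hamV (fun q => F t q i) p) =
      L v a := by
    intro t a p
    have h1 := hbr t i a p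
    rw [bracket_lin, bracket, hamField_eq] at h1
    exact h1
  have hchange : ∀ t (a : Fin k) s p, F t (Φ t s p) a = F t p a + s * L v a := by
    intro t a s p
    exact (hCOM n R (comp L i) (comp L j) (fun q => F t q i) (fun q => F t q a) (L v a) (Φ t)
      (Ψ t) ((hFa i).contDiff t) ((hFa a).contDiff t) (hconst t a) (hΦ t)).1 s p
  have hcom : ∀ t a b p, Φ t a (Ψ t b p) = Ψ t b (Φ t a p) := by
    intro t
    exact (hCOM n R (comp L i) (comp L j) (fun q => F t q i) (fun q => F t q j) (L v j) (Φ t)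
      (Ψ t) ((hFa i).contDiff t) ((hFa j).contDiff t) (hconst t j) (hΦ t)).2 (hΨ t)
  have hgeo := fun t => hGEO n R C v w l (Φ t) (Ψ t) hR hCpos hlv hlw hw0 hB
    (fun s => ((hΦ t).smooth s).continuous) (hΦ t).zero (hΦ t).add (hΨ t).zero (hΨ t).add
    (hΦ t).straight (hΨ t).straight (hcom t)
  -- the family
  classical
  set G : T → Phase n → Phase n := fun t p => if ‖p‖ ≤ R then Φ t (2 * C) p - (2 * C) • v else p
    with hG
  have hGout : ∀ t p, R < ‖p‖ → G t p = p := fun t p hp => if_neg (not_le.2 hp)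
  have hGl : ∀ t p, -C < l p → G t p = Φ t (2 * C) p - (2 * C) • v := by
    intro t p hp
    by_cases h : ‖p‖ ≤ R
    · exact if_pos h
    · rw [hGout t p (not_le.1 h), (hgeo t).1 p (not_le.1 h) hp.le, add_sub_cancel_right]
  have hlopen : IsOpen {p : Phase n | -C < l p} := isOpen_lt continuous_const l.continuous
  have hcov : ∀ p : Phase n, -C < l p ∨ R < ‖p‖ := by
    intro p
    by_cases h : ‖p‖ ≤ R
    · left
      have := (abs_lt.1 (hB p h)).1
      exact this
    · right
      exact not_le.1 h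
  have hΦ' : CF (fun t p => Φ t (2 * C) p - (2 * C) • v) :=
    (hΦcf (2 * C)).sub (CF.const contDiff_const)
  have hGcf : CF G := by
    apply CF.of_local
    intro p
    rcases hcov p with h | h
    · exact ⟨{p | -C < l p}, fun t p => Φ t (2 * C) p - (2 * C) • v, hlopen, h, hΦ',
        fun t q hq => hGl t q hq⟩
    · exact ⟨{p | R < ‖p‖}, fun _ p => p, isOpen_outside R, h, CF.const contDiff_id,
        fun t q hq => hGout t q hq⟩
  have hsymp : ∀ t p u u', omegaStd (fderiv ℝ (G t) p u) (fderiv ℝ (G t) p u') =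
      omegaStd u u' := by
    intro t p u u'
    rcases hcov p with h | h
    · have h1 : G t =ᶠ[𝓝 p] fun p => Φ t (2 * C) p - (2 * C) • v := by
        filter_upwards [hlopen.mem_nhds h] with q hq
        exact hGl t q hq
      rw [h1.fderiv_eq, fderiv_sub_const]
      exact (hΦ t).symp (2 * C) p u u'
    · have h1 : G t =ᶠ[𝓝 p] id := by
        filter_upwards [(isOpen_outside R).mem_nhds h] with q hq
        exact hGout t q hq
      rw [h1.fderiv_eq, fderiv_id]
      rfl
  have hK : ∀ t, ∀ x ∉ Metric.closedBall (0 : Phase n) R, G t x = x := by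
    intro t x hx
    refine hGout t x ?_
    rw [Metric.mem_closedBall, dist_zero_right, not_le] at hx
    exact hx
  refine ⟨fun t => mkSymp (G t) (hGcf.contDiff t)
    ⟨Metric.closedBall 0 R, isCompact_closedBall 0 R, hK t⟩ (hsymp t), ?_, ?_⟩
  · exact continuous_of_CF hGcf ⟨Metric.closedBall 0 R, isCompact_closedBall 0 R⟩
      (fun t x hx => hK t x hx) (fun t x => rfl)
  · intro t p
    rw [mkSymp_apply]
    rcases hcov p with h | h
    · rw [hGl t p h]
      -- the end point is outside the ball or the point is outside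
      by_cases hp : ‖p‖ ≤ R
      · have h1 : C ≤ l (Φ t (2 * C) p) := by
          rcases (hgeo t).2 p with h2 | h2
          · linarith
          · exact h2
        have h2 : R < ‖Φ t (2 * C) p‖ := by
          by_contra hcon
          have := hB _ (not_lt.1 hcon)
          have h3 := le_abs_self (l (Φ t (2 * C) p))
          linarith
        funext a
        have h3 := hchange t a (2 * C) p
        rw [hstd t _ h2] at h3
        rw [map_sub, map_smul, Pi.sub_apply, Pi.smul_apply, h3, smul_eq_mul]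
        ring
      · rw [(hgeo t).1 p (not_le.1 hp) h.le, add_sub_cancel_right, hstd t p (not_le.1 hp)]
    · rw [hGout t p h, hstd t p h]

/-- the system of functions of a symplectomorphism -/
noncomputable def toSys (L : Phase n →L[ℝ] (Fin k → ℝ)) (φ : SympCt n) : TupleSp L :=
  ⟨fun p => L ((φ : Equiv.Perm (Phase n)) p), L.contDiff.comp φ.2.1, by
    obtain ⟨K, hK, hφ⟩ := φ.2.2.2.2
    exact ⟨K, hK, fun p hp => congrArg L (hφ p hp)⟩, fun a b p => by
    have h1 : (fun q => L ((φ : Equiv.Perm (Phase n)) q) a) =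
        fun q => comp L a ((φ : Equiv.Perm (Phase n)) q) := rfl
    have h2 : (fun q => L ((φ : Equiv.Perm (Phase n)) q) b) =
        fun q => comp L b ((φ : Equiv.Perm (Phase n)) q) := rfl
    have h3 : HasFDerivAt (fun q => comp L b ((φ : Equiv.Perm (Phase n)) q))
        ((comp L b).comp (fderiv ℝ (φ : Equiv.Perm (Phase n)) p)) p :=
      (comp L b).hasFDerivAt.comp p (SympCt.differentiable φ p).hasFDerivAt
    rw [bracket_lin, bracket, hamField_eq, h1, h2, h3.fderiv, ContinuousLinearMap.comp_apply,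
      map_hamV (comp L a).differentiable, hamV_lin]
    rfl⟩

theorem toSys_apply (L : Phase n →L[ℝ] (Fin k → ℝ)) (φ : SympCt n) (p : Phase n) :
    (toSys L φ).1 p = L ((φ : Equiv.Perm (Phase n)) p) := rfl

/-- **FIN** -/
theorem homeo (hFLO : St_FLO) (hCOM : St_COM) (hGEO : St_GEO) (hUNI : St_UNI) (hTOP : St_TOP)
    (hSEQ : St_SEQ) (L : Phase n →L[ℝ] (Fin k → ℝ)) (i j : Fin k)
    (hij : ∀ a b : ℝ, (∀ p, a * L p i + b * L p j = 0) → a = 0 ∧ b = 0) :
    ∃ e : SympCt n ≃ₜ TupleSp L, ∀ (φ : SympCt n) p,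
      (e φ).1 p = L ((φ : Equiv.Perm (Phase n)) p) := by
  obtain ⟨hT1, hT2, hT3, -⟩ := hTOP n k L
  have hcont : Continuous (toSys L) := by
    apply continuous_iSup_dom.2
    intro K
    apply continuous_coinduced_dom.2
    exact hT1 (SympSupp n K) (fun φ p => L ((φ.1 : Equiv.Perm (Phase n)) p)) K
      (toSys L ∘ SympSupp.incl K) (CF.clm L (hT3 K)) (fun φ x hx => by rw [φ.2 x hx])
      (fun φ x => rfl)
  -- injectivity
  have hinj : Injective (toSys L) := by
    intro φ ψ h
    refine hUNI n (comp L i) φ ψ ?_ ?_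
    · intro h0
      have h1 := (hij 1 0 (fun p => by
        have h2 : L p i = 0 := by
          have := congrArg (fun m : Phase n →L[ℝ] ℝ => m p) h0
          exact this
        rw [h2]
        ring)).1
      exact one_ne_zero h1
    · intro p
      have h1 : (toSys L φ).1 p i = (toSys L ψ).1 p i := by rw [h]
      exact h1
  -- inverses of compact families
  have hloc : ∀ (K : Compacts (Phase n)) (T : Type) [TopologicalSpace T] [CompactSpace T]
      (u : T → TupleSupp L K), Continuous u →
      ∃ φ : T → SympCt n, Continuous φ ∧ ∀ t : T, toSys L (φ t) = (u t).1 := by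
    intro K T _ _ u hu
    obtain ⟨R, hR⟩ := K.isCompact.isBounded.subset_closedBall (0 : Phase n)
    have hout : ∀ p : Phase n, max R 0 < ‖p‖ → p ∉ K := by
      intro p hp hpK
      have h1 := hR hpK
      rw [Metric.mem_closedBall, dist_zero_right] at h1
      have := le_max_left R 0
      linarith
    obtain ⟨φ, hφ, hL⟩ := fam hFLO hCOM hGEO L i j hij T (max R 0) (le_max_right _ _)
      (fun t p => (u t).1.1 p) (CF.base (h := u) hu (hT2 K))
      (fun t p hp => (u t).2 p (hout p hp)) (fun t a b p => (u t).1.2.2.2 a b p)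
    refine ⟨φ, hφ, fun t => ?_⟩
    apply Subtype.ext
    funext p
    exact hL t p
  -- surjectivity
  have hsurj : Surjective (toSys L) := by
    intro F
    obtain ⟨K, hK, hFK⟩ := F.2.2.1
    obtain ⟨φ, -, hφ⟩ := hloc ⟨K, hK⟩ Unit (fun _ => ⟨F, hFK⟩) continuous_const
    exact ⟨φ (), hφ ()⟩
  set e₀ := Equiv.ofBijective (toSys L) ⟨hinj, hsurj⟩ with he₀
  have hcont' : Continuous e₀.symm := by
    apply continuous_iSup_dom.2
    intro K
    apply continuous_coinduced_dom.2
    apply hSEQ n k L K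
    intro T _ _ u hu
    obtain ⟨φ, hφ, hφe⟩ := hloc K T u hu
    have h2 : (e₀.symm ∘ TupleSupp.incl K) ∘ u = φ := by
      funext t
      show e₀.symm (u t).1 = φ t
      rw [Equiv.symm_apply_eq]
      exact (hφe t).symm
    rw [h2]
    exact hφ
  exact ⟨⟨e₀, hcont, hcont'⟩, fun φ p => rfl⟩

end FIN

end Pool.Agent.TWF
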