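import Pool.Agent.TWF.St

/-!
# TWF, module FLO: flows of families of functions which are linear at infinity
-/

set_option autoImplicit false
set_option maxSynthPendingDepth 3

open scoped ContDiff Topology NNReal
open Set Function TopologicalSpace Filter

namespace Pool.Agent.TWF

open Pool.Agent.Helper17 Pool.Agent.Helper42 Pool.Agent.H50.Susp

/-- FLO with a compact parameter space -/
theorem flo_compact (N : ℕ) (T : Type) [TopologicalSpace T] [CompactSpace T] (R ℓ : ℝ)
    (m : Phase N →L[ℝ] ℝ) (f : T → Phase N → ℝ) (hcf : CF f)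
    (hstd : ∀ t p, R < ‖p‖ → f t p = m p)
    (hℓ : ∀ t p, ‖fderiv ℝ (fun q => hamV (f t) q) p‖ ≤ ℓ) :
    ∃ Φ : T → ℝ → Phase N → Phase N, (∀ a, CF (fun t p => Φ t a p)) ∧
      ∀ t, Flw R m (f t) (Φ t) := by
  set X : T → Phase N → Phase N := fun t p => hamV (f t) p with hXdef
  have hX : CF X := CF_hamV hcf
  obtain ⟨θ, hθ0, hθd, hθg, hθCF, hval⟩ := exists_global_flow X hX hℓ
  have hL : ∀ t, LipschitzWith (Real.toNNReal |ℓ|) (X t) := by
    intro t
    apply LipschitzWith.of_dist_le_mul
    intro x y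
    rw [dist_eq_norm, dist_eq_norm, Real.coe_toNNReal _ (abs_nonneg _)]
    exact convex_univ.norm_image_sub_le_of_norm_fderiv_le (𝕜 := ℝ)
      (fun z _ => hX.differentiable t z) (fun z _ => (hℓ t z).trans (le_abs_self ℓ))
      (mem_univ y) (mem_univ x)
  have huniq : ∀ t (c : ℝ → Phase N), (∀ s, HasDerivAt c (hamV (f t) (c s)) s) →
      ∀ s, c s = θ t s (c 0) := by
    intro t c hc s
    have h1 : c = fun s => θ t s (c 0) :=
      ode_unique_univ (hL t) (a := 0) hc (fun s => hθd t _ s) (by simp only [hθ0])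
    exact congrFun h1 s
  have hsymp : ∀ t (c : ℝ) p u v, omegaStd (fderiv ℝ (θ t c) p u) (fderiv ℝ (θ t c) p v) =
      omegaStd u v := by
    intro t c p u v
    obtain ⟨r, A, r0, A0, hr, hA, r1, A1⟩ := hval t c p
    have hder : ∀ s ∈ Icc (0 : ℝ) 1, HasDerivAt (fun s => omegaStd (A s u) (A s v)) 0 s := by
      intro s hs
      set D := fderiv ℝ (X t) (r s) with hD
      have hau : HasDerivAt (fun s => A s u) ((c • D.comp (A s)) u) s := by
        have := (hA s hs).clm_apply (hasDerivAt_const s u)
        simpa using this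
      have hav : HasDerivAt (fun s => A s v) ((c • D.comp (A s)) v) s := by
        have := (hA s hs).clm_apply (hasDerivAt_const s v)
        simpa using this
      have h1 : HasDerivAt (fun s => omegaStd (A s u) (A s v))
          (omegaStd ((c • D.comp (A s)) u) (A s v) + omegaStd (A s u) ((c • D.comp (A s)) v)) s := by
        exact ((omegaB N).hasFDerivAt.comp_hasDerivAt s hau).clm_apply hav
      refine h1.congr_deriv ?_
      have h2 := fderiv_hamV_symm (hcf.contDiff t) (r s) (A s u) (A s v)
      have h3 : (c • D.comp (A s)) u = c • (D (A s u)) := rfl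
      have h4 : (c • D.comp (A s)) v = c • (D (A s v)) := rfl
      rw [h3, h4, omegaStd_smul_left, omegaStd_smul_right, ← mul_add]
      have h5 : omegaStd (D (A s u)) (A s v) + omegaStd (A s u) (D (A s v)) = 0 := h2
      rw [h5, mul_zero]
    have hconst := (convex_Icc (0 : ℝ) 1).norm_image_sub_le_of_norm_hasDerivWithin_le
      (f := fun s => omegaStd (A s u) (A s v)) (f' := fun _ => 0) (C := 0)
      (fun t ht => (hder t ht).hasDerivWithinAt)
      (fun t _ => by simp) (left_mem_Icc.2 zero_le_one) (right_mem_Icc.2 zero_le_one)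
    rw [zero_mul, norm_le_zero_iff, sub_eq_zero] at hconst
    rw [← A1, hconst, A0]
    simp
  have hCF : ∀ a, CF (fun t p => θ t a p) := by
    intro a
    exact (hθCF |a|).base (h := fun t : T =>
      (t, (⟨a, neg_abs_le a, le_abs_self a⟩ : Icc (-|a|) |a|)))
      (continuous_id.prodMk continuous_const)
  -- outside the ball the field is constant
  have hout : ∀ t p, R < ‖p‖ → X t p = vec m := by
    intro t p hp
    have h1 : f t =ᶠ[𝓝 p] m := by
      filter_upwards [(isOpen_outside R).mem_nhds hp] with q hq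
      exact hstd t q hq
    show -(sharp N (fderiv ℝ (f t) p)) = -(sharp N m)
    rw [h1.fderiv_eq, ContinuousLinearMap.fderiv]
  have hstraight : ∀ t (p : Phase N) (a : ℝ), (∀ τ ∈ uIcc 0 a, R < ‖p + τ • vec m‖) →
      θ t a p = p + a • vec m := by
    intro t p a h
    have hmem : ∀ τ ∈ Icc (0 : ℝ) 1, a * τ ∈ uIcc 0 a := by
      intro τ hτ
      rcases le_total 0 a with ha | ha
      · rw [uIcc_of_le ha]
        exact ⟨mul_nonneg ha hτ.1, by nlinarith [hτ.2]⟩
      · rw [uIcc_of_ge ha]
        exact ⟨by nlinarith [hτ.2], mul_nonpos_of_nonpos_of_nonneg ha hτ.1⟩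
    have hf' : ∀ τ : ℝ, HasDerivAt (fun τ => θ t (a * τ) p) (a • X t (θ t (a * τ) p)) τ := by
      intro τ
      have h1 : HasDerivAt (fun τ : ℝ => a * τ) a τ := by
        simpa using (hasDerivAt_id τ).const_mul a
      exact (hθd t p (a * τ)).scomp τ h1
    have hg' : ∀ τ ∈ Icc (0 : ℝ) 1, HasDerivAt (fun τ => p + (a * τ) • vec m)
        (a • X t (p + (a * τ) • vec m)) τ := by
      intro τ hτ
      rw [hout t _ (h _ (hmem τ hτ))]
      have h1 : HasDerivAt (fun τ : ℝ => a * τ) a τ := by
        simpa using (hasDerivAt_id τ).const_mul a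
      exact (h1.smul_const (vec m)).const_add p
    have hLip : ∀ τ : ℝ, LipschitzWith (Real.toNNReal |a| * Real.toNNReal |ℓ|)
        (fun x => a • X t x) := by
      intro _
      apply LipschitzWith.of_dist_le_mul
      intro x y
      have h1 := (hL t).dist_le_mul x y
      rw [dist_smul₀, NNReal.coe_mul, Real.coe_toNNReal _ (abs_nonneg a), mul_assoc,
        Real.norm_eq_abs]
      exact mul_le_mul_of_nonneg_left h1 (abs_nonneg a)
    have key := ODE_solution_unique (v := fun _ x => a • X t x) (a := 0) (b := 1) hLip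
      (f := fun τ => θ t (a * τ) p) (g := fun τ => p + (a * τ) • vec m)
      (HasDerivAt.continuousOn fun τ _ => hf' τ)
      (fun τ _ => (hf' τ).hasDerivWithinAt)
      (HasDerivAt.continuousOn fun τ hτ => hg' τ hτ)
      (fun τ hτ => (hg' τ (Ico_subset_Icc_self hτ)).hasDerivWithinAt)
      (by simp only [mul_zero, zero_smul, add_zero, hθ0])
    have h2 := key (right_mem_Icc.2 zero_le_one)
    simpa only [mul_one] using h2
  exact ⟨θ, hCF, fun t => ⟨fun s => (hCF s).contDiff t, hθ0 t, hθg t, fun s p => hθd t p s,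
    hsymp t, huniq t, hstraight t⟩⟩

theorem thm_FLO : St_FLO := fun N T _ _ R ℓ m f hcf hstd hℓ =>
  flo_compact N T R ℓ m f hcf hstd hℓ

end Pool.Agent.TWF
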