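import Pool.Agent.TWF.St

/-!
# TWF, module GEO: no scattering, no trapping
-/

set_option autoImplicit false

open Set Function

namespace Pool.Agent.TWF

open Pool.Agent.Helper17 Pool.Agent.Helper42 Pool.Agent.H50.Susp

namespace GEO

/-- a line leaves a ball -/
theorem exists_far {N : ℕ} (R : ℝ) (hR : 0 ≤ R) (v w : Phase N) (l : Phase N →L[ℝ] ℝ)
    (hv : l v = 1) (hw : l w = 0) (hw0 : w ≠ 0) (p : Phase N) :
    ∃ r : ℝ, 0 ≤ r ∧ ∀ a : ℝ, R < ‖p + r • w + a • v‖ ∧ R < ‖p + (-r) • w + a • v‖ := by
  obtain ⟨m, -, hm⟩ := exists_dual_vector ℝ w (norm_ne_zero_iff.2 hw0)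
  have hm' : m w = ‖w‖ := by simpa using hm
  set l' : Phase N →L[ℝ] ℝ := m - (m v) • l with hl'
  have h1 : l' w = ‖w‖ := by simp [hl', hw, hm']
  have h2 : l' v = 0 := by simp [hl', hv]
  have hw1 : 0 < ‖w‖ := norm_pos_iff.2 hw0
  have hn : 0 ≤ ‖l'‖ * R := mul_nonneg (norm_nonneg _) hR
  set r : ℝ := (‖l'‖ * R + |l' p| + 1) / ‖w‖ with hr
  have hrw : r * ‖w‖ = ‖l'‖ * R + |l' p| + 1 := by rw [hr]; field_simp
  have h3 : ∀ x : Phase N, ‖l'‖ * R < |l' x| → R < ‖x‖ := by
    intro x hx
    by_contra hcon
    push Not at hcon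
    have h4 := l'.le_opNorm x
    rw [Real.norm_eq_abs] at h4
    have h5 : ‖l'‖ * ‖x‖ ≤ ‖l'‖ * R := mul_le_mul_of_nonneg_left hcon (norm_nonneg _)
    linarith
  refine ⟨r, div_nonneg (by have := abs_nonneg (l' p); linarith) hw1.le, fun a => ⟨?_, ?_⟩⟩
  · apply h3
    have h4 : l' (p + r • w + a • v) = l' p + r * ‖w‖ := by simp [h1, h2]
    rw [h4, hrw]
    have h5 := neg_abs_le (l' p)
    refine lt_of_lt_of_le ?_ (le_abs_self _)
    linarith
  · apply h3
    have h4 : l' (p + (-r) • w + a • v) = l' p + -(r * ‖w‖) := by simp [h1, h2]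
    rw [h4, hrw]
    have h5 := le_abs_self (l' p)
    refine lt_of_lt_of_le ?_ (neg_le_abs _)
    linarith

/-- a point outside a ball is not between two points of the ball -/
theorem not_between {N : ℕ} {R : ℝ} {p w : Phase N} (hp : R < ‖p‖) {a b : ℝ} (ha : 0 ≤ a)
    (hb : 0 ≤ b) (h1 : ‖p + a • w‖ ≤ R) (h2 : ‖p - b • w‖ ≤ R) : False := by
  rcases eq_or_lt_of_le (add_nonneg ha hb) with h0 | h0
  · have ha0 : a = 0 := by linarith
    rw [ha0, zero_smul, add_zero] at h1
    linarith
  · have h3 : (a + b) • p = b • (p + a • w) + a • (p - b • w) := by module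
    have h4 : ‖(a + b) • p‖ ≤ b * R + a * R := by
      rw [h3]
      refine (norm_add_le _ _).trans (add_le_add ?_ ?_)
      · rw [norm_smul, Real.norm_of_nonneg hb]
        exact mul_le_mul_of_nonneg_left h1 hb
      · rw [norm_smul, Real.norm_of_nonneg ha]
        exact mul_le_mul_of_nonneg_left h2 ha
    rw [norm_smul, Real.norm_of_nonneg h0.le] at h4
    have h5 : (a + b) * R < (a + b) * ‖p‖ := mul_lt_mul_of_pos_left hp h0
    linarith

end GEO

theorem thm_GEO : St_GEO := by
  intro N R C v w l Φ Ψ hR hC hv hw hw0 hB hΦc hΦ0 hΦa hΨ0 hΨa hΦs hΨs hcom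
  -- outside the ball in the two half spaces
  have hout : ∀ p, C ≤ |l p| → R < ‖p‖ := by
    intro p hp
    by_contra hcon
    exact absurd (hB p (not_lt.1 hcon)) (not_lt.2 hp)
  -- lemma S
  have hS : ∀ (ε : ℝ) (p : Phase N) (a : ℝ), (ε = 1 ∨ ε = -1) → (∀ τ : ℝ, 0 ≤ τ → R < ‖p + τ • (ε • w)‖) →
      C ≤ l p + a → Φ a p = p + a • v := by
    intro ε p a hε hray hla
    obtain ⟨r, hr, hfar⟩ := GEO.exists_far R hR v w l hv hw hw0 p
    have h1 : Ψ (ε * r) p = p + (ε * r) • w := by
      apply hΨs
      intro τ hτ
      rcases hε with rfl | rfl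
      · rw [one_mul, uIcc_of_le hr] at hτ
        have := hray τ hτ.1
        rwa [one_smul] at this
      · have h2 : -1 * r ≤ 0 := by linarith
        rw [uIcc_of_ge h2] at hτ
        have := hray (-τ) (by linarith [hτ.2])
        rwa [neg_one_smul, smul_neg, neg_smul, neg_neg] at this
    have h2 : Φ a (p + (ε * r) • w) = p + (ε * r) • w + a • v := by
      apply hΦs
      intro τ _
      rcases hε with rfl | rfl
      · rw [one_mul]
        exact (hfar τ).1
      · rw [neg_one_mul]
        exact (hfar τ).2
    have h3 : Ψ (ε * r) (Φ a p) = p + (ε * r) • w + a • v := by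
      rw [← hcom, h1, h2]
    have h4 : Φ a p = Ψ (-(ε * r)) (p + (ε * r) • w + a • v) := by
      rw [← h3, ← hΨa, neg_add_cancel, hΨ0]
    rw [h4, hΨs]
    · module
    · intro τ _
      apply hout
      have h5 : l (p + (ε * r) • w + a • v + τ • w) = l p + a := by
        simp [hv, hw]
      rw [h5]
      exact hla.trans (le_abs_self _)
  have hleft : ∀ (p : Phase N) (a : ℝ), l p ≤ -C → C ≤ l p + a → Φ a p = p + a • v := by
    intro p a hp ha
    refine hS 1 p a (Or.inl rfl) ?_ ha
    intro τ _
    apply hout
    have h5 : l (p + τ • ((1 : ℝ) • w)) = l p := by simp [hw]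
    rw [h5, le_abs]
    right
    linarith
  constructor
  · intro p hp hlp
    -- one of the two rays is free
    have hor : (∀ τ : ℝ, 0 ≤ τ → R < ‖p + τ • ((1 : ℝ) • w)‖) ∨
        (∀ τ : ℝ, 0 ≤ τ → R < ‖p + τ • ((-1 : ℝ) • w)‖) := by
      by_contra hcon
      push Not at hcon
      obtain ⟨⟨a, ha, h1⟩, ⟨b, hb, h2⟩⟩ := hcon
      rw [one_smul] at h1
      rw [neg_one_smul, smul_neg, ← sub_eq_add_neg] at h2
      exact GEO.not_between hp ha hb h1 h2
    rcases hor with h | h
    · exact hS 1 p (2 * C) (Or.inl rfl) h (by linarith)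
    · exact hS (-1) p (2 * C) (Or.inr rfl) h (by linarith)
  · -- the set of the points which come from the left is open and closed
    set U : Set (Phase N) := {p | ∃ s : ℝ, 0 ≤ s ∧ l (Φ (-s) p) < -C} with hU
    have hUo : IsOpen U := by
      have : U = ⋃ s : ℝ, ⋃ _ : 0 ≤ s, {p | l (Φ (-s) p) < -C} := by
        ext p
        simp [hU]
      rw [this]
      refine isOpen_iUnion fun s => isOpen_iUnion fun _ => ?_
      exact isOpen_lt (l.continuous.comp (hΦc (-s))) continuous_const
    have hUeq : U = {p | l p ≤ -C} ∪ {p | C ≤ l (Φ (2 * C) p)} := by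
      ext p
      constructor
      · rintro ⟨s, hs, hx⟩
        set x := Φ (-s) p with hxd
        have hp : p = Φ s x := by rw [hxd, ← hΦa, add_neg_cancel, hΦ0]
        by_cases h1 : l x + s ≤ -C
        · left
          have h2 : Φ s x = x + s • v := by
            apply hΦs
            intro τ hτ
            rw [uIcc_of_le hs] at hτ
            apply hout
            have h3 : l (x + τ • v) = l x + τ := by simp [hv]
            rw [h3, le_abs]
            right
            linarith [hτ.2]
          show l p ≤ -C
          rw [hp, h2]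
          have h3 : l (x + s • v) = l x + s := by simp [hv]
          rw [h3]
          exact h1
        · right
          push Not at h1
          show C ≤ l (Φ (2 * C) p)
          have h2 : Φ (2 * C) p = Φ (2 * C + s) x := by rw [hΦa, ← hp]
          rw [h2, hleft x (2 * C + s) hx.le (by linarith)]
          have h3 : l (x + (2 * C + s) • v) = l x + (2 * C + s) := by simp [hv]
          rw [h3]
          linarith
      · rintro (h1 | h1)
        · refine ⟨1, zero_le_one, ?_⟩
          have h2 : Φ (-1) p = p + (-1 : ℝ) • v := by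
            apply hΦs
            intro τ hτ
            rw [uIcc_of_ge (by norm_num : (-1 : ℝ) ≤ 0)] at hτ
            apply hout
            have h3 : l (p + τ • v) = l p + τ := by simp [hv]
            rw [h3, le_abs]
            right
            have h4 : l p ≤ -C := h1
            linarith [hτ.2]
          rw [h2]
          have h3 : l (p + (-1 : ℝ) • v) = l p + -1 := by simp [hv]
          rw [h3]
          have h4 : l p ≤ -C := h1
          linarith
        · set q := Φ (2 * C) p with hq
          have h1' : C ≤ l q := h1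
          -- q comes from the left
          set a : ℝ := l q + C + 1 with ha
          have h2 : Φ a (q + (-a) • v) = q := by
            rw [hleft (q + (-a) • v) a]
            · module
            · have h3 : l (q + (-a) • v) = l q + -a := by simp [hv]
              rw [h3, ha]
              linarith
            · have h3 : l (q + (-a) • v) = l q + -a := by simp [hv]
              rw [h3]
              linarith
          refine ⟨a - 2 * C, by rw [ha]; linarith, ?_⟩
          have h3 : Φ (-(a - 2 * C)) p = q + (-a) • v := by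
            have h4 : -(a - 2 * C) = -a + 2 * C := by ring
            rw [h4, hΦa, ← hq]
            conv_lhs => rw [← h2]
            rw [← hΦa, neg_add_cancel, hΦ0]
          rw [h3]
          have h4 : l (q + (-a) • v) = l q + -a := by simp [hv]
          rw [h4, ha]
          linarith
    have hUc : IsClosed U := by
      rw [hUeq]
      exact (isClosed_le l.continuous continuous_const).union
        (isClosed_le continuous_const (l.continuous.comp (hΦc (2 * C))))
    have hne : U.Nonempty := by
      refine ⟨(-C) • v, ?_⟩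
      rw [hUeq]
      left
      show l ((-C) • v) ≤ -C
      simp [hv]
    have huniv : U = univ := IsClopen.eq_univ ⟨hUc, hUo⟩ hne
    intro p
    have : p ∈ U := by rw [huniv]; trivial
    rw [hUeq] at this
    exact this

end Pool.Agent.TWF
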