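import Pool.Agent.TWF.St

/-!
# TWF, module SEQ: the stages `TupleSupp L K` are first countable
-/

set_option autoImplicit false
set_option maxSynthPendingDepth 3

open scoped ContDiff Distributions Topology
open Set Function TopologicalSpace Filter

namespace Pool.Agent.TWF

open Pool.Agent.Helper17 Pool.Agent.Helper42 Pool.Agent.H50.Susp

instance {n : ℕ} (K : Compacts (Phase n)) (F : Type) [NormedAddCommGroup F] [NormedSpace ℝ F] :
    FirstCountableTopology 𝓓_{K}(Phase n, F) := by
  constructor
  intro a
  have h1 : 𝓝 a = ⨅ i : ℕ, comap (ContDiffMapSupportedIn.structureMapLM ℝ ⊤ i)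
      (𝓝 (ContDiffMapSupportedIn.structureMapLM ℝ ⊤ i a)) := by
    have h2 : (ContDiffMapSupportedIn.topologicalSpace : TopologicalSpace 𝓓_{K}(Phase n, F)) =
      ⨅ (i : ℕ), induced (ContDiffMapSupportedIn.structureMapLM ℝ ⊤ i) inferInstance := rfl
    rw [h2, nhds_iInf]
    refine iInf_congr fun i => ?_
    rw [nhds_induced]
  rw [h1]
  infer_instance

variable {n k : ℕ}

instance (L : Phase n →L[ℝ] (Fin k → ℝ)) (K : Compacts (Phase n)) :
    FirstCountableTopology (TupleSupp L K) :=
  firstCountableTopology_induced (TupleSupp L K) 𝓓_{K}(Phase n, Fin k → ℝ) (TupleSupp.disp K)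

/-- A map from a first countable space is continuous if it is so along all continuous maps from
`ℕ ∪ {∞}`. -/
theorem continuous_of_onePoint {X Y : Type} [TopologicalSpace X] [FirstCountableTopology X]
    [TopologicalSpace Y] (f : X → Y)
    (h : ∀ g : C(OnePoint ℕ, X), Continuous fun t => f (g t)) : Continuous f := by
  rw [continuous_iff_seqContinuous]
  intro x p hx
  have h1 := h (OnePoint.continuousMapMkNat x p hx)
  rw [OnePoint.continuous_iff_from_nat] at h1
  exact h1

theorem thm_SEQ : St_SEQ := by
  intro n k L K Y _ g h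
  refine continuous_of_onePoint g fun u => ?_
  exact h (OnePoint ℕ) u u.continuous

end Pool.Agent.TWF
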