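import Pool.Agent.TWF.FIN

/-!
# TWF, module Sharp: one function is not enough
-/

set_option autoImplicit false

open scoped ContDiff Topology
open Set Function TopologicalSpace

namespace Pool.Agent.TWF

open Pool.Agent.Helper17 Pool.Agent.Helper42 Pool.Agent.H50.Susp

namespace FIN

variable {n k : ℕ}

lemma bracket_mul (u : Phase n → ℝ) (hu : Differentiable ℝ u) (a b : ℝ) (p : Phase n) :
    bracket (fun q => a * u q) (fun q => b * u q) p = 0 := by
  have h1 : ∀ c : ℝ, fderiv ℝ (fun q => c * u q) p = c • fderiv ℝ u p := fun c =>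
    ((hu p).hasFDerivAt.const_mul c).fderiv
  have h2 : hamV (fun q => a * u q) p = a • hamV u p := by
    rw [hamV, hamV, h1, map_smul, smul_neg]
  rw [bracket, hamField_eq, h1, h2, map_smul, _root_.smul_apply, fderiv_hamV_self]
  simp

theorem sharp (L : Phase n →L[ℝ] (Fin k → ℝ)) (hk : 0 < k)
    (h : ∀ i j, ¬ ∀ a b : ℝ, (∀ p, a * L p i + b * L p j = 0) → a = 0 ∧ b = 0) :
    ¬ Surjective (toSys L) := by
  intro hs
  let χ : ContDiffBump (0 : Phase n) := ⟨1, 2, one_pos, one_lt_two⟩
  have hχs : ContDiff ℝ ∞ (χ : Phase n → ℝ) := χ.contDiff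
  have hχ1 : ∀ p : Phase n, ‖p‖ ≤ 1 → χ p = 1 := fun p hp =>
    χ.one_of_mem_closedBall (by simpa using hp)
  have hχ0 : ∀ p : Phase n, p ∉ Metric.closedBall (0 : Phase n) 2 → χ p = 0 := fun p hp =>
    χ.zero_of_le_dist (by
      rw [Metric.mem_closedBall, not_le] at hp
      exact hp.le)
  by_cases hL : L = 0
  · -- the bump function itself
    obtain ⟨φ, hφ⟩ := hs ⟨fun p _ => χ p, contDiff_pi.2 fun _ => hχs,
      ⟨Metric.closedBall 0 2, isCompact_closedBall 0 2, fun p hp => by
        rw [hL]
        funext a
        exact hχ0 p hp⟩, fun a b p => by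
        have h1 := bracket_mul (χ : Phase n → ℝ) (hχs.differentiable (by simp)) 1 1 p
        simp only [one_mul] at h1
        rw [bracket_lin, hL]
        exact h1⟩
    have h1 : (toSys L φ).1 0 ⟨0, hk⟩ = χ 0 := by rw [hφ]
    rw [toSys_apply, hχ1 0 (by simp), hL] at h1
    simp at h1
  · -- `(1 - χ) L`
    have hc : ∃ (m : Phase n →L[ℝ] ℝ) (c : Fin k → ℝ), ∀ p a, L p a = c a * m p := by
      have h1 : ∃ i, comp L i ≠ 0 := by
        by_contra hcon
        push Not at hcon
        apply hL
        ext p a
        have := congrArg (fun m : Phase n →L[ℝ] ℝ => m p) (hcon a)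
        exact this
      obtain ⟨i, hi⟩ := h1
      have h2 : ∀ a, ∃ c : ℝ, ∀ p, L p a = c * L p i := by
        intro a
        have h3 := h i a
        push Not at h3
        obtain ⟨x, y, h4, h5⟩ := h3
        have hy : y ≠ 0 := by
          intro hy
          have hx : x = 0 := by
            by_contra hx
            apply hi
            ext p
            have := h4 p
            rw [hy, zero_mul, add_zero] at this
            exact (mul_eq_zero.1 this).resolve_left hx
          exact h5 hx hy
        refine ⟨-(x / y), fun p => ?_⟩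
        have := h4 p
        field_simp
        linarith
      choose c hc using h2
      exact ⟨comp L i, c, fun p a => hc a p⟩
    obtain ⟨m, c, hc⟩ := hc
    have hus : ContDiff ℝ ∞ (fun p => (1 - χ p) * m p) :=
      (contDiff_const.sub hχs).mul m.contDiff
    have hLb : ∀ a b p, bracket (fun q => L q a) (fun q => L q b) p = 0 := by
      intro a b p
      have h1 := bracket_mul (fun q => m q) m.differentiable (c a) (c b) p
      simp only [hc]
      exact h1
    obtain ⟨φ, hφ⟩ := hs ⟨fun p => (1 - χ p) • L p, (contDiff_const.sub hχs).smul L.contDiff,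
      ⟨Metric.closedBall 0 2, isCompact_closedBall 0 2, fun p hp => by
        show (1 - χ p) • L p = L p
        rw [hχ0 p hp, sub_zero, one_smul]⟩, fun a b p => by
        have h1 := bracket_mul _ (hus.differentiable (by simp)) (c a) (c b) p
        rw [hLb]
        have h2 : ∀ a, (fun q => ((1 - χ q) • L q) a) = fun q => c a * ((1 - χ q) * m q) := by
          intro a
          funext q
          rw [Pi.smul_apply, smul_eq_mul, hc]
          ring
        rw [h2, h2]
        exact h1⟩
    -- the derivative at `0`
    have h1 : ∀ p : Phase n, ‖p‖ < 1 → L ((φ : Equiv.Perm (Phase n)) p) = 0 := by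
      intro p hp
      have h2 : (toSys L φ).1 p = (1 - χ p) • L p := by rw [hφ]
      rw [toSys_apply, hχ1 p hp.le, sub_self, zero_smul] at h2
      exact h2
    have h3 : L.comp (fderiv ℝ (φ : Equiv.Perm (Phase n)) 0) = 0 := by
      have h4 : HasFDerivAt (fun p => L ((φ : Equiv.Perm (Phase n)) p))
          (L.comp (fderiv ℝ (φ : Equiv.Perm (Phase n)) 0)) 0 :=
        L.hasFDerivAt.comp 0 (SympCt.differentiable φ 0).hasFDerivAt
      have h5 : (fun p => L ((φ : Equiv.Perm (Phase n)) p)) =ᶠ[𝓝 0] fun _ => 0 := by
        filter_upwards [Metric.ball_mem_nhds (0 : Phase n) one_pos] with p hp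
        exact h1 p (by simpa using hp)
      rw [← h4.fderiv, h5.fderiv_eq]
      exact (hasFDerivAt_const (0 : Fin k → ℝ) (0 : Phase n)).fderiv
    apply hL
    ext1 p
    obtain ⟨u, rfl⟩ := symp_surj (φ.2.2.2.1 0) p
    have := congrArg (fun A : Phase n →L[ℝ] (Fin k → ℝ) => A u) h3
    exact this

end FIN

end Pool.Agent.TWF
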