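import Pool.Agent.TWF.St
import Pool.Agent.Helper17.DirectLimit
import Pool.Agent.Helper17.SympFamily
import Pool.Agent.Helper42.Susp.PairMap

/-!
# TWF, module TOP: topology of the space of systems (helper16)
-/

set_option autoImplicit false
set_option maxSynthPendingDepth 3

open scoped ContDiff Distributions Topology
open Set Function TopologicalSpace Filter Topology

namespace Pool.Agent.TWF

open Pool.Agent.Helper17 Pool.Agent.Helper42 Pool.Agent.H50.Susp

namespace TOP

variable {n k : ℕ} {L : Phase n →L[ℝ] (Fin k → ℝ)}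

lemma isInducing_disp (K : Compacts (Phase n)) :
    IsInducing (TupleSupp.disp K : TupleSupp L K → 𝓓_{K}(Phase n, Fin k → ℝ)) := ⟨rfl⟩

lemma continuous_incl (K : Compacts (Phase n)) :
    Continuous (TupleSupp.incl K : TupleSupp L K → TupleSp L) :=
  continuous_iSup_rng (i := K) continuous_coinduced_rng

/-- Smooth families which are equal to `L` outside a common compact set are continuous. -/
lemma continuous_of_CF_tuple {T : Type} [TopologicalSpace T] {F : T → Phase n → Fin k → ℝ}
    (hF : CF F) (K : Compacts (Phase n)) (hK : ∀ t, ∀ x ∉ K, F t x = L x)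
    {g : T → TupleSp L} (hg : ∀ t x, (g t).1 x = F t x) : Continuous g := by
  set gK : T → TupleSupp L K := fun t => ⟨g t, fun p hp => by rw [hg, hK t p hp]⟩ with hgK
  have hcont : Continuous gK := by
    rw [continuous_induced_rng, ContDiffMapSupportedIn.continuous_iff_comp]
    intro i
    apply continuous_bcf_of_joint _ K.isCompact
    · intro t x hx
      simp only [comp_apply]
      rw [ContDiffMapSupportedIn.structureMapCLM_top_apply]
      exact ContDiffMapSupportedIn.iteratedFDeriv_zero_on_compl _ hx
    · have h1 : ∀ q : T × Phase n,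
          ((ContDiffMapSupportedIn.structureMapCLM ℝ ⊤ i ∘ TupleSupp.disp K ∘ gK) q.1) q.2 =
          iteratedFDeriv ℝ i (fun x => F q.1 x - L x) q.2 := by
        intro q
        simp only [comp_apply]
        rw [ContDiffMapSupportedIn.structureMapCLM_top_apply]
        have : (TupleSupp.disp K (gK q.1) : Phase n → Fin k → ℝ) =
            fun x => F q.1 x - L x := by
          funext x
          change (g q.1).1 x - L x = _
          rw [hg]
        rw [this]
      simp_rw [h1]
      exact (hF.sub (CF.const L.contDiff)).continuous_iteratedFDeriv i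
  exact (continuous_incl K).comp hcont

/-- The tautological family over the stages of the direct limit. -/
lemma CF_tuple (K : Compacts (Phase n)) :
    CF (fun (t : TupleSupp L K) (x : Phase n) => t.1.1 x) := by
  have h1 : CF (fun (t : TupleSupp L K) (x : Phase n) => t.1.1 x - L x) := by
    intro m
    apply CFk.of_iteratedFDeriv
    · intro t
      exact t.1.2.1.sub L.contDiff
    · intro i
      have h2 : Continuous (fun t : TupleSupp L K => ContDiffMapSupportedIn.structureMapCLM ℝ ⊤ i
          (TupleSupp.disp K t)) :=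
        (ContDiffMapSupportedIn.structureMapCLM ℝ ⊤ i).continuous.comp
          (isInducing_disp K).continuous
      have h3 : ∀ q : TupleSupp L K × Phase n, iteratedFDeriv ℝ i
          (fun x => q.1.1.1 x - L x) q.2 =
          (ContDiffMapSupportedIn.structureMapCLM ℝ ⊤ i (TupleSupp.disp K q.1)) q.2 := by
        intro q
        rw [ContDiffMapSupportedIn.structureMapCLM_top_apply]
        rfl
      simp_rw [h3]
      exact Continuous.eval (h2.comp continuous_fst) continuous_snd
  have h2 := h1.add (CF.const (T := TupleSupp L K) L.contDiff)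
  have h3 : (fun (t : TupleSupp L K) (x : Phase n) => t.1.1 x) =
      fun t x => t.1.1 x - L x + L x := by
    funext t x
    exact (sub_add_cancel _ _).symm
  rw [h3]
  exact h2

/-- Local bounds for the derivatives of the Hamiltonian fields. -/
lemma exists_local_bound (K : Compacts (Phase n)) (i : Fin k) (t₀ : TupleSupp L K) :
    ∃ (U : Set (TupleSupp L K)) (ℓ : ℝ), IsOpen U ∧ t₀ ∈ U ∧ ∀ t ∈ U, ∀ p,
      ‖fderiv ℝ (fun q => hamV (fun q => t.1.1 q i) q) p‖ ≤ ℓ := by
  have hi : CF (fun (t : TupleSupp L K) (x : Phase n) => t.1.1 x i) :=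
    (CF_tuple K).clm (ContinuousLinearMap.proj i : (Fin k → ℝ) →L[ℝ] ℝ)
  have hV : CF (fun (t : TupleSupp L K) (x : Phase n) => hamV (fun q => t.1.1 q i) x) :=
    CF_hamV hi
  have hG : Continuous (fun q : TupleSupp L K × Phase n =>
      ‖fderiv ℝ (fun x => hamV (fun q' => q.1.1.1 q' i) x) q.2‖) := hV.fderiv.continuous.norm
  obtain ⟨C, hC⟩ := K.isCompact.exists_bound_of_continuousOn
    (f := fun p => ‖fderiv ℝ (fun x => hamV (fun q' => t₀.1.1 q' i) x) p‖)
    (hG.comp (Continuous.prodMk_right t₀)).continuousOn
  have hev : ∀ᶠ t in 𝓝 t₀, ∀ p ∈ (K : Set (Phase n)),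
      ‖fderiv ℝ (fun x => hamV (fun q' => t.1.1 q' i) x) p‖ < max C 0 + 1 := by
    apply K.isCompact.eventually_forall_of_forall_eventually
    intro p hp
    have h1 := hG.tendsto (t₀, p)
    refine h1.eventually (gt_mem_nhds ?_)
    have h2 := hC p hp
    rw [norm_norm] at h2
    have h3 := le_max_left C 0
    change ‖fderiv ℝ (fun x => hamV (fun q' => t₀.1.1 q' i) x) p‖ < max C 0 + 1
    linarith
  obtain ⟨U, hU, hUo, htU⟩ := mem_nhds_iff.1 hev
  refine ⟨U, max C 0 + 1, hUo, htU, fun t ht p => ?_⟩
  by_cases hp : p ∈ (K : Set (Phase n))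
  · exact (hU ht p hp).le
  · have hopen : IsOpen ((K : Set (Phase n))ᶜ) := K.isCompact.isClosed.isOpen_compl
    set m : Phase n →L[ℝ] ℝ := (ContinuousLinearMap.proj i : (Fin k → ℝ) →L[ℝ] ℝ).comp L with hm
    have h1 : ∀ x ∈ (K : Set (Phase n))ᶜ, hamV (fun q => t.1.1 q i) x = vec m := by
      intro x hx
      have h2 : (fun q => t.1.1 q i) =ᶠ[𝓝 x] fun q => m q := by
        filter_upwards [hopen.mem_nhds hx] with y hy
        have h3 := t.2 y hy
        change t.1.1 y i = L y i
        rw [h3]
      rw [hamV, vec, h2.fderiv_eq, m.fderiv]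
    have h2 : (fun x => hamV (fun q => t.1.1 q i) x) =ᶠ[𝓝 p] fun _ => vec m := by
      filter_upwards [hopen.mem_nhds hp] with y hy
      exact h1 y hy
    rw [h2.fderiv_eq, fderiv_const_apply, norm_zero]
    have := le_max_right C 0
    linarith

end TOP

theorem thm_TOP : St_TOP := fun _ _ _ =>
  ⟨fun _ _ _ K _ hF hK hg => TOP.continuous_of_CF_tuple hF K hK hg, fun K => TOP.CF_tuple K,
    fun K => CF_supp K, fun K i t₀ => TOP.exists_local_bound K i t₀⟩

end Pool.Agent.TWF
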