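import Pool.Agent.TWF.St

/-!
# TWF, module UNI: one linear function determines the symplectomorphism
-/

set_option autoImplicit false

open scoped ContDiff Topology
open Set Function TopologicalSpace

namespace Pool.Agent.TWF

open Pool.Agent.Helper17 Pool.Agent.Helper42 Pool.Agent.H50.Susp

namespace UNI

variable {N : ℕ}

lemma omega_vec (m : Phase N →L[ℝ] ℝ) (u : Phase N) : omegaStd (vec m) u = -(m u) := by
  have h1 : vec m = (-1 : ℝ) • sharp N m := by simp [vec]
  rw [h1, omegaStd_smul_left, omegaStd_sharp]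
  ring

lemma vec_ne (m : Phase N →L[ℝ] ℝ) (hm : m ≠ 0) : vec m ≠ 0 := by
  intro h
  apply hm
  ext u
  have h1 := omega_vec m u
  rw [h] at h1
  have h2 : omegaStd (0 : Phase N) u = 0 := by simp [omegaStd]
  rw [h2] at h1
  have h3 : m u = 0 := by linarith
  rw [h3]
  rfl

lemma step (m : Phase N →L[ℝ] ℝ) (hm : m ≠ 0) (χ : Equiv.Perm (Phase N)) (h : IsSympCt χ)
    (hz : ∀ p, m (χ p) = m p) (p : Phase N) : χ p = p := by
  obtain ⟨hs, -, hω, K, hK, hKχ⟩ := h
  have hd : ∀ p, HasFDerivAt χ (fderiv ℝ χ p) p := fun p =>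
    (hs.differentiable (by simp) p).hasFDerivAt
  have hDy : ∀ p v, m (fderiv ℝ χ p v) = m v := by
    intro p v
    have h1 : HasFDerivAt (fun p => m (χ p)) (m.comp (fderiv ℝ χ p)) p :=
      m.hasFDerivAt.comp p (hd p)
    have h2 : (fun p => m (χ p)) = fun p => m p := by
      funext q
      exact hz q
    rw [h2] at h1
    have h3 := h1.unique m.hasFDerivAt
    exact congrArg (fun L : Phase N →L[ℝ] ℝ => L v) h3
  have hsurj : ∀ p, Surjective (fderiv ℝ χ p) := by
    intro p
    have hinj : Injective (fderiv ℝ χ p : Phase N →ₗ[ℝ] Phase N) := by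
      rw [injective_iff_map_eq_zero]
      intro v hv
      apply eq_zero_of_omegaStd
      intro w
      have hv' : fderiv ℝ χ p v = 0 := hv
      rw [← hω p v w, hv']
      simp [omegaStd]
    exact LinearMap.surjective_of_injective hinj
  have hX : ∀ p, fderiv ℝ χ p (vec m) = vec m := by
    intro p
    rw [← sub_eq_zero]
    apply eq_zero_of_omegaStd
    intro w
    obtain ⟨v, rfl⟩ := hsurj p w
    rw [omegaStd_sub_left, hω, omega_vec, omega_vec, hDy, sub_self]
  have hcurve : ∀ a : ℝ, HasDerivAt (fun a : ℝ => χ (p + a • vec m) - a • vec m) 0 a := by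
    intro a
    have h1 : HasDerivAt (fun a : ℝ => a • (vec m : Phase N)) (vec m) a := by
      have h2 := (hasDerivAt_id a).smul_const (vec m : Phase N)
      rw [one_smul] at h2
      exact h2
    have h2 : HasDerivAt (fun a : ℝ => p + a • (vec m : Phase N)) (vec m) a := h1.const_add p
    have h3 := (hd (p + a • vec m)).comp_hasDerivAt a h2
    have h4 := h3.sub h1
    rw [hX, sub_self] at h4
    exact h4
  have hconst : ∀ a : ℝ, χ (p + a • vec m) - a • vec m = χ p := by
    intro a
    have h1 := is_const_of_deriv_eq_zero (fun a => (hcurve a).differentiableAt)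
      (fun a => (hcurve a).deriv) a 0
    simp only [zero_smul, add_zero, sub_zero] at h1
    exact h1
  obtain ⟨B, hB⟩ := hK.isBounded.exists_norm_le
  have hnorm : 0 < ‖(vec m : Phase N)‖ := norm_pos_iff.2 (vec_ne m hm)
  obtain ⟨s, hs'⟩ : ∃ s : ℝ, s = (|B| + ‖p‖ + 1) / ‖(vec m : Phase N)‖ := ⟨_, rfl⟩
  have hs0 : 0 < s := by
    rw [hs']
    positivity
  have hsn : ‖s • (vec m : Phase N)‖ = |B| + ‖p‖ + 1 := by
    rw [norm_smul, Real.norm_eq_abs, abs_of_pos hs0, hs', div_mul_cancel₀ _ hnorm.ne']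
  have hout : p + s • vec m ∉ K := by
    intro hmem
    have h1 := hB _ hmem
    have h3 : ‖s • (vec m : Phase N)‖ ≤ ‖p + s • (vec m : Phase N)‖ + ‖p‖ := by
      have h4 := norm_sub_le (p + s • (vec m : Phase N)) p
      rwa [add_sub_cancel_left] at h4
    have h5 := le_abs_self B
    linarith
  rw [← hconst s, hKχ _ hout, add_sub_cancel_right]

end UNI

theorem thm_UNI : St_UNI := by
  intro N m φ ψ hm h
  have h1 : IsSympCt ((φ : Equiv.Perm (Phase N)) * (ψ : Equiv.Perm (Phase N))⁻¹) :=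
    IsSympCt.mul φ.2 (IsSympCt.inv ψ.2)
  have h2 := UNI.step m hm _ h1 (fun p => by
    show m ((φ : Equiv.Perm (Phase N)) ((ψ : Equiv.Perm (Phase N))⁻¹ p)) = m p
    rw [h]
    congr 1
    exact Equiv.apply_symm_apply _ p)
  apply Subtype.ext
  apply Equiv.ext
  intro p
  have h3 := h2 ((ψ : Equiv.Perm (Phase N)) p)
  have h4 : ((φ : Equiv.Perm (Phase N)) * (ψ : Equiv.Perm (Phase N))⁻¹)
      ((ψ : Equiv.Perm (Phase N)) p) = (φ : Equiv.Perm (Phase N)) p := by
    show (φ : Equiv.Perm (Phase N)) ((ψ : Equiv.Perm (Phase N))⁻¹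
      ((ψ : Equiv.Perm (Phase N)) p)) = _
    congr 1
    exact Equiv.symm_apply_apply _ p
  rw [← h4, h3]

end Pool.Agent.TWF
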