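import Pool.Agent.TWF.COM
import Pool.Agent.TWF.FIN
import Pool.Agent.TWF.FLO
import Pool.Agent.TWF.GEO
import Pool.Agent.TWF.SEQ
import Pool.Agent.TWF.Sharp
import Pool.Agent.TWF.TOP
import Pool.Agent.TWF.UNI

/-!
# TWF: assembly
-/

set_option autoImplicit false

open Set Function

namespace Pool.Agent.TWF

open Pool.Agent.Helper17

theorem two_functions {n k : ℕ} (hk : 0 < k) (L : Phase n →L[ℝ] (Fin k → ℝ)) :
    (Indep L ↔ ∃ e : SympCt n ≃ₜ TupleSp L, ∀ (φ : SympCt n) (p : Phase n),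
      (e φ).1 p = L ((φ : Equiv.Perm (Phase n)) p)) ∧
    (Indep L ↔ ∀ F : TupleSp L, ∃ φ : SympCt n, ∀ p : Phase n,
      F.1 p = L ((φ : Equiv.Perm (Phase n)) p)) := by
  have h1 : Indep L → ∃ e : SympCt n ≃ₜ TupleSp L, ∀ (φ : SympCt n) (p : Phase n),
      (e φ).1 p = L ((φ : Equiv.Perm (Phase n)) p) := by
    rintro ⟨i, j, hij⟩
    exact FIN.homeo thm_FLO thm_COM thm_GEO thm_UNI thm_TOP thm_SEQ L i j hij
  have h2 : (∃ e : SympCt n ≃ₜ TupleSp L, ∀ (φ : SympCt n) (p : Phase n),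
      (e φ).1 p = L ((φ : Equiv.Perm (Phase n)) p)) →
      ∀ F : TupleSp L, ∃ φ : SympCt n, ∀ p : Phase n,
        F.1 p = L ((φ : Equiv.Perm (Phase n)) p) := by
    rintro ⟨e, he⟩ F
    refine ⟨e.symm F, fun p => ?_⟩
    rw [← he, e.apply_symm_apply]
  have h3 : (∀ F : TupleSp L, ∃ φ : SympCt n, ∀ p : Phase n,
      F.1 p = L ((φ : Equiv.Perm (Phase n)) p)) → Indep L := by
    intro h
    by_contra hcon
    refine FIN.sharp L hk (fun i j hij => hcon ⟨i, j, hij⟩) fun F => ?_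
    obtain ⟨φ, hφ⟩ := h F
    exact ⟨φ, Subtype.ext (funext fun p => (hφ p).symm)⟩
  exact ⟨⟨h1, fun h => h3 (h2 h)⟩, ⟨fun h => h2 (h1 h), h3⟩⟩

end Pool.Agent.TWF
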