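import Pool.Agent.TWF.St

/-!
# TWF, module COM: commuting flows
-/

set_option autoImplicit false

open scoped ContDiff Topology
open Set Function TopologicalSpace

namespace Pool.Agent.TWF

open Pool.Agent.Helper17 Pool.Agent.Helper42 Pool.Agent.H50.Susp

/-- a function whose bracket with `f` is constant changes linearly along the flow of `f` -/
theorem com_linear {N : ℕ} {R : ℝ} {m : Phase N →L[ℝ] ℝ} {f g : Phase N → ℝ} {c : ℝ}
    {Φ : ℝ → Phase N → Phase N} (hg : ContDiff ℝ ∞ g)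
    (hc : ∀ p, fderiv ℝ g p (hamV f p) = c) (hΦ : Flw R m f Φ) (a : ℝ) (p : Phase N) :
    g (Φ a p) = g p + a * c := by
  have h1 : ∀ s : ℝ, HasDerivAt (fun s : ℝ => g (Φ s p) - s * c) 0 s := by
    intro s
    have h2 : HasDerivAt (fun s : ℝ => g (Φ s p)) (fderiv ℝ g (Φ s p) (hamV f (Φ s p))) s :=
      ((hg.differentiable (by simp) (Φ s p)).hasFDerivAt).comp_hasDerivAt s (hΦ.der s p)
    rw [hc] at h2
    have h3 : HasDerivAt (fun s : ℝ => s * c) c s := by
      simpa using (hasDerivAt_id s).mul_const c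
    have h6 := h2.sub h3
    rw [sub_self] at h6
    exact h6
  have h4 := is_const_of_deriv_eq_zero (f := fun s : ℝ => g (Φ s p) - s * c)
    (fun s => (h1 s).differentiableAt) (fun s => (h1 s).deriv) a 0
  have h5 : g (Φ a p) - a * c = g (Φ 0 p) - 0 * c := h4
  rw [hΦ.zero] at h5
  linarith

/-- the derivative of `Φ a` maps the field of `g` to the field of `g` -/
theorem com_push {N : ℕ} {R : ℝ} {m : Phase N →L[ℝ] ℝ} {f g : Phase N → ℝ} {c : ℝ}
    {Φ : ℝ → Phase N → Phase N} (hg : ContDiff ℝ ∞ g)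
    (hc : ∀ p, fderiv ℝ g p (hamV f p) = c) (hΦ : Flw R m f Φ) (a : ℝ) (p : Phase N) :
    fderiv ℝ (Φ a) p (hamV g p) = hamV g (Φ a p) := by
  have hback : Φ (-a) (Φ a p) = p := by
    rw [← hΦ.add, neg_add_cancel, hΦ.zero]
  have hcomp : (fderiv ℝ (Φ a) p).comp (fderiv ℝ (Φ (-a)) (Φ a p)) =
      ContinuousLinearMap.id ℝ _ := by
    have h4 : HasFDerivAt (fun q => Φ a (Φ (-a) q)) _ (Φ a p) :=
      HasFDerivAt.comp _ (((hΦ.smooth a).differentiable (by simp) _).hasFDerivAt)
        (((hΦ.smooth (-a)).differentiable (by simp) _).hasFDerivAt)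
    have h5 : (fun q => Φ a (Φ (-a) q)) = fun q => q := by
      funext q
      rw [← hΦ.add, add_neg_cancel, hΦ.zero]
    rw [h5, hback] at h4
    exact h4.unique (hasFDerivAt_id _)
  have hlin : ∀ w, fderiv ℝ g (Φ a p) (fderiv ℝ (Φ a) p w) = fderiv ℝ g p w := by
    intro w
    have h1 : HasFDerivAt (fun q => g (Φ a q))
        ((fderiv ℝ g (Φ a p)).comp (fderiv ℝ (Φ a) p)) p :=
      HasFDerivAt.comp p ((hg.differentiable (by simp) _).hasFDerivAt)
        (((hΦ.smooth a).differentiable (by simp) _).hasFDerivAt)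
    have h2 : (fun q => g (Φ a q)) = fun q => g q + a * c :=
      funext fun q => com_linear hg hc hΦ a q
    rw [h2] at h1
    have h3 : HasFDerivAt (fun q => g q + a * c) (fderiv ℝ g p) p :=
      ((hg.differentiable (by simp) p).hasFDerivAt).add_const _
    have h4 := h1.unique h3
    exact congrArg (fun L : Phase N →L[ℝ] ℝ => L w) h4
  rw [← sub_eq_zero]
  apply eq_zero_of_omegaStd
  intro v
  have hv : fderiv ℝ (Φ a) p (fderiv ℝ (Φ (-a)) (Φ a p) v) = v :=
    congrArg (fun L : Phase N →L[ℝ] Phase N => L v) hcomp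
  rw [← hv, omegaStd_sub_left, hΦ.symp, omegaStd_hamV, omegaStd_hamV, hlin]
  ring

theorem thm_COM : St_COM := by
  intro N R m m' f g c Φ Ψ _ hg hc hΦ
  refine ⟨fun a p => com_linear hg hc hΦ a p, fun hΨ a b p => ?_⟩
  have h1 := hΨ.uniq (fun b => Φ a (Ψ b p)) (by
    intro s
    have h2 := (((hΦ.smooth a).differentiable (by simp) (Ψ s p)).hasFDerivAt).comp_hasDerivAt s
      (hΨ.der s p)
    rw [com_push hg hc hΦ] at h2
    exact h2) b
  simp only [hΨ.zero] at h1
  exact h1

end Pool.Agent.TWF
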