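import Mathlib
import Pool.Agent.Helper42.NT.Def

/-!
# TWF: systems of functions with constant Poisson brackets, linear at infinity: definitions

MP_ec5dc5 (helper97); page R21_MP_ec5dc5_gt_pairs.md in the team store.
-/

set_option autoImplicit false

open scoped ContDiff Distributions Topology
open Set Function TopologicalSpace

namespace Pool.Agent.TWF

open Pool.Agent.Helper17 Pool.Agent.Helper42

/-- The Poisson bracket `{f, g} = ∑ (∂f/∂x_j ∂g/∂y_j - ∂f/∂y_j ∂g/∂x_j)`. -/
noncomputable def bracket {n : ℕ} (f g : Phase n → ℝ) (p : Phase n) : ℝ :=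
  fderiv ℝ g p (hamField f p)

/-- `F` is a smooth map, it is equal to the linear map `L` outside a compact set, and its components
have the Poisson brackets of the components of `L`. -/
abbrev IsTuple {n k : ℕ} (L : Phase n →L[ℝ] (Fin k → ℝ)) (F : Phase n → Fin k → ℝ) : Prop :=
  ContDiff ℝ ∞ F ∧
    (∃ K : Set (Phase n), IsCompact K ∧ ∀ p ∉ K, F p = L p) ∧
    ∀ i j p, bracket (fun q => F q i) (fun q => F q j) p =
      bracket (fun q => L q i) (fun q => L q j) p

/-- The space of all systems of `k` smooth functions on `ℝ^{2n}` which are equal to the linear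
functions `L_1, ..., L_k` outside a compact set and have the Poisson brackets of `L_1, ..., L_k`. -/
def TupleSp {n k : ℕ} (L : Phase n →L[ℝ] (Fin k → ℝ)) : Type :=
  {F : Phase n → Fin k → ℝ // IsTuple L F}

/-- The systems which are equal to `L` outside the compact set `K`. -/
def TupleSupp {n k : ℕ} (L : Phase n →L[ℝ] (Fin k → ℝ)) (K : Compacts (Phase n)) : Type :=
  {F : TupleSp L // ∀ p ∉ K, F.1 p = L p}

/-- The inclusion. -/
def TupleSupp.incl {n k : ℕ} {L : Phase n →L[ℝ] (Fin k → ℝ)} (K : Compacts (Phase n)) :
    TupleSupp L K → TupleSp L := Subtype.val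

/-- The difference to `L`, as an element of the Fréchet space of smooth maps supported in `K`. -/
noncomputable def TupleSupp.disp {n k : ℕ} {L : Phase n →L[ℝ] (Fin k → ℝ)}
    (K : Compacts (Phase n)) (F : TupleSupp L K) : 𝓓_{K}(Phase n, Fin k → ℝ) where
  toFun p := F.1.1 p - L p
  contDiff' := F.1.2.1.sub L.contDiff
  zero_on_compl' := fun p hp => by
    have := F.2 p hp
    simp [this]

/-- The `C^∞` topology on the systems equal to `L` outside `K`: uniform convergence of all
derivatives. -/
noncomputable instance {n k : ℕ} (L : Phase n →L[ℝ] (Fin k → ℝ)) (K : Compacts (Phase n)) :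
    TopologicalSpace (TupleSupp L K) :=
  TopologicalSpace.induced (TupleSupp.disp K) inferInstance

/-- The direct limit topology: the finest topology for which all the inclusions of the spaces
`TupleSupp L K` are continuous. -/
noncomputable instance {n k : ℕ} (L : Phase n →L[ℝ] (Fin k → ℝ)) :
    TopologicalSpace (TupleSp L) :=
  ⨆ K : Compacts (Phase n), TopologicalSpace.coinduced (TupleSupp.incl K) inferInstance

/-- Two of the linear functions `L_1, ..., L_k` are linearly independent. -/
def Indep {n k : ℕ} (L : Phase n →L[ℝ] (Fin k → ℝ)) : Prop :=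
  ∃ i j : Fin k, ∀ a b : ℝ, (∀ p, a * L p i + b * L p j = 0) → a = 0 ∧ b = 0

/-- `F = L ∘ φ`. -/
def IsPull {n k : ℕ} {L : Phase n →L[ℝ] (Fin k → ℝ)} (F : TupleSp L) (φ : SympCt n) : Prop :=
  ∀ p : Phase n, F.1 p = L ((φ : Equiv.Perm (Phase n)) p)

end Pool.Agent.TWF
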