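import Pool.Agent.TWF.Defs
import Pool.Agent.H50.Susp.Straighten

/-!
# TWF: statements of the modules

MP_ec5dc5 (helper97). Every `def St_X : Prop` is one module `Pool/Agent/TWF/X.lean` with
`theorem thm_X : St_X` in the namespace `Pool.Agent.TWF`.
-/

set_option autoImplicit false

open scoped ContDiff Topology
open Set Function TopologicalSpace

namespace Pool.Agent.TWF

open Pool.Agent.Helper17 Pool.Agent.Helper42 Pool.Agent.H50.Susp

/-- the constant Hamiltonian field of a linear function: `hamV m p = vec m` -/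
noncomputable def vec {N : ℕ} (m : Phase N →L[ℝ] ℝ) : Phase N := -(sharp N m)

/-- `Φ` is the flow of `f`, and `f` is the linear function `m` outside the ball of radius `R`. -/
structure Flw {N : ℕ} (R : ℝ) (m : Phase N →L[ℝ] ℝ) (f : Phase N → ℝ)
    (Φ : ℝ → Phase N → Phase N) : Prop where
  smooth : ∀ s, ContDiff ℝ ∞ (Φ s)
  zero : ∀ p, Φ 0 p = p
  add : ∀ a b p, Φ (a + b) p = Φ a (Φ b p)
  der : ∀ s p, HasDerivAt (fun s => Φ s p) (hamV f (Φ s p)) s
  symp : ∀ s p u w, omegaStd (fderiv ℝ (Φ s) p u) (fderiv ℝ (Φ s) p w) = omegaStd u w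
  uniq : ∀ c : ℝ → Phase N, (∀ s, HasDerivAt c (hamV f (c s)) s) → ∀ s, c s = Φ s (c 0)
  straight : ∀ (p : Phase N) (a : ℝ), (∀ τ ∈ uIcc 0 a, R < ‖p + τ • vec m‖) →
    Φ a p = p + a • vec m

/-- **FLO**. Flows of families. `exists_global_flow` for `X t p = hamV (f t) p`, then `hL`, `huniq`,
`hsymp` as in `thm_FLW` (`Pool/Agent/CRC/FLW.lean`), with the given bound `ℓ` instead of the one from
compactness. `straight`: `hamV (f t) q = vec m` for `R < ‖q‖`, so `τ ↦ p + τ • vec m` solves the same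
equation on `uIcc 0 a`; `ODE_solution_unique_of_mem_Icc_right` for `0 ≤ a`, `.._left` (or reflection) for
`a ≤ 0` with the Lipschitz constant `hL`. -/
def St_FLO : Prop := ∀ (N : ℕ) (T : Type) [TopologicalSpace T] [CompactSpace T] (R ℓ : ℝ) (m : Phase N →L[ℝ] ℝ)
  (f : T → Phase N → ℝ), CF f → (∀ t p, R < ‖p‖ → f t p = m p) →
  (∀ t p, ‖fderiv ℝ (fun q => hamV (f t) q) p‖ ≤ ℓ) →
  ∃ Φ : T → ℝ → Phase N → Phase N, (∀ a, CF (fun t p => Φ t a p)) ∧ ∀ t, Flw R m (f t) (Φ t)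

/-- **COM**. (1) `g` changes linearly along the flow of `f` if `{f, g}` is the constant `c` (derivative
of `s ↦ g (Φ s p) - s * c`). (2) The flows commute: `Φ a` is symplectic and `g ∘ Φ a = g + a * c`, so
`fderiv (Φ a) p (hamV g p) = hamV g (Φ a p)` (`eq_zero_of_omegaStd`; `fderiv (Φ a) p` is surjective: it is
injective, finite dimension, or use `Φ (-a)`), so `b ↦ Φ a (Ψ b p)` is an orbit of `g`, `uniq`. -/
def St_COM : Prop := ∀ (N : ℕ) (R : ℝ) (m m' : Phase N →L[ℝ] ℝ) (f g : Phase N → ℝ) (c : ℝ)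
  (Φ Ψ : ℝ → Phase N → Phase N), ContDiff ℝ ∞ f → ContDiff ℝ ∞ g →
  (∀ p, fderiv ℝ g p (hamV f p) = c) → Flw R m f Φ →
  (∀ a p, g (Φ a p) = g p + a * c) ∧
  (Flw R m' g Ψ → ∀ a b p, Φ a (Ψ b p) = Ψ b (Φ a p))

/-- **GEO**. No scattering and no trapping for two commuting flows which are translations by the
independent vectors `v`, `w` outside the ball of radius `R`. -/
def St_GEO : Prop := ∀ (N : ℕ) (R C : ℝ) (v w : Phase N) (l : Phase N →L[ℝ] ℝ)
  (Φ Ψ : ℝ → Phase N → Phase N), 0 ≤ R → 0 < C → l v = 1 → l w = 0 → w ≠ 0 →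
  (∀ p, ‖p‖ ≤ R → |l p| < C) → (∀ s, Continuous (Φ s)) →
  (∀ p, Φ 0 p = p) → (∀ a b p, Φ (a + b) p = Φ a (Φ b p)) →
  (∀ p, Ψ 0 p = p) → (∀ a b p, Ψ (a + b) p = Ψ a (Ψ b p)) →
  (∀ p a, (∀ τ ∈ uIcc 0 a, R < ‖p + τ • v‖) → Φ a p = p + a • v) →
  (∀ p a, (∀ τ ∈ uIcc 0 a, R < ‖p + τ • w‖) → Ψ a p = p + a • w) →
  (∀ a b p, Φ a (Ψ b p) = Ψ b (Φ a p)) →
  (∀ p, R < ‖p‖ → -C ≤ l p → Φ (2 * C) p = p + (2 * C) • v) ∧
  ∀ p, l p ≤ -C ∨ C ≤ l (Φ (2 * C) p)

/-- **UNI**. One linear function `m ≠ 0` determines the symplectomorphism: `χ = φ ψ⁻¹` preserves `m`, so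
`D χ (vec m) = vec m` (`omegaStd (vec m) u = -(m u)`, nondegeneracy, `D χ` surjective), so
`χ (p + s • vec m) = χ p + s • vec m`, and this is `p + s • vec m` for large `s`. Model: `CRC/UNI.lean`. -/
def St_UNI : Prop := ∀ (N : ℕ) (m : Phase N →L[ℝ] ℝ) (φ ψ : SympCt N), m ≠ 0 →
  (∀ p, m ((φ : Equiv.Perm (Phase N)) p) = m ((ψ : Equiv.Perm (Phase N)) p)) → φ = ψ

/-- **TOP**. Topology of `TupleSp L`. (1) smooth families with common compact support are continuous
(copy of `continuous_nt_of_CF` in `Helper42/NT/Top.lean` or `CRC/TOP.lean`). (2) `TupleSupp L K` is itself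
a smooth family (the part of `CF_of_continuous` for a fixed `K`; no compactness of the parameter
space). (3) the same for `SympSupp n K` (`CF_supp` in `Helper42/Susp/PairMap.lean`?). (4) local bounds:
for a point `t₀` of the parameter space the derivatives of the fields of the `i`-th functions are
bounded near `t₀` (zero outside `K`, tube lemma on `{t₀} × K`). -/
def St_TOP : Prop := ∀ (n k : ℕ) (L : Phase n →L[ℝ] (Fin k → ℝ)),
  (∀ (T : Type) [TopologicalSpace T] (F : T → Phase n → Fin k → ℝ) (K : Compacts (Phase n))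
    (g : T → TupleSp L), CF F → (∀ t, ∀ x ∉ K, F t x = L x) → (∀ t x, (g t).1 x = F t x) →
    Continuous g) ∧
  (∀ K : Compacts (Phase n), CF (fun (t : TupleSupp L K) (x : Phase n) => t.1.1 x)) ∧
  (∀ K : Compacts (Phase n), CF (fun (φ : SympSupp n K) (x : Phase n) =>
    (φ.1 : Equiv.Perm (Phase n)) x)) ∧
  (∀ (K : Compacts (Phase n)) (i : Fin k) (t₀ : TupleSupp L K), ∃ (U : Set (TupleSupp L K)) (ℓ : ℝ),
    IsOpen U ∧ t₀ ∈ U ∧ ∀ t ∈ U, ∀ p,
      ‖fderiv ℝ (fun q => hamV (fun q => t.1.1 q i) q) p‖ ≤ ℓ)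

/-- **SEQ**. `TupleSupp L K` is first countable, so continuity of a map on it can be tested on
compact parameter spaces (`OnePoint ℕ`). -/
def St_SEQ : Prop := ∀ (n k : ℕ) (L : Phase n →L[ℝ] (Fin k → ℝ)) (K : Compacts (Phase n))
  (Y : Type) [TopologicalSpace Y] (g : TupleSupp L K → Y),
  (∀ (T : Type) [TopologicalSpace T] [CompactSpace T] (u : T → TupleSupp L K), Continuous u →
    Continuous (g ∘ u)) → Continuous g

end Pool.Agent.TWF
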